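import Pool.Agent.Run7.h556.MW.Exp
import Pool.Agent.TH181.MW.Max
import Pool.Agent.TH181.MW.Cov

/-! # The Hausdorff dimension of the exceptional leading coefficients -/

set_option autoImplicit false

open Finset MeasureTheory

namespace Pool.Agent.Run7.h556.MW

open Pool.Agent.TH181.MW
open Pool.Agent.W928.MW (e sm e_add e_norm e_sub_re e_cont sm_le ev_pow ev_log)

/-- the inequality of `H_k(η)` for one `t`, one `ε` and one constant -/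
def Hold (k : ℕ) (η ε C t : ℝ) : Prop :=
  ∀ N : ℕ, 2 ≤ N → ∀ ξ : ℝ, ∀ a q : ℕ, 1 ≤ a → a < q → q ≤ N → Nat.Coprime a q →
    |t - (a : ℝ) / (q : ℝ)| ≤ 1 / (q : ℝ) ^ 2 →
    ‖sm k N t ξ‖ ≤ C * (N : ℝ) ^ (1 + ε) *
      (1 / (q : ℝ) + 1 / (N : ℝ) + (q : ℝ) / (N : ℝ) ^ k) ^ η

theorem big_le (k N q : ℕ) (η ε : ℝ) (hη : 0 ≤ η) (hN : 1 ≤ N) :
    (N : ℝ) ^ (1 - η + ε) ≤ (N : ℝ) ^ (1 + ε) *
      (1 / (q : ℝ) + 1 / (N : ℝ) + (q : ℝ) / (N : ℝ) ^ k) ^ η := by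
  have hN' : (1 : ℝ) ≤ (N : ℝ) := by exact_mod_cast hN
  have h1 : (N : ℝ) ^ (1 - η + ε) = (N : ℝ) ^ (1 + ε) * (1 / (N : ℝ)) ^ η := by
    rw [Real.div_rpow (by norm_num) (by positivity), Real.one_rpow, mul_one_div, ← Real.rpow_sub (by positivity)]
    congr 1
    ring
  rw [h1]
  apply mul_le_mul_of_nonneg_left _ (by positivity)
  apply Real.rpow_le_rpow (by positivity) _ hη
  have h2 : 0 ≤ 1 / (q : ℝ) + (q : ℝ) / (N : ℝ) ^ k := by positivity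
  linarith

/-- bad parameters at scale `2^i` -/
def Bt (k : ℕ) (η ε : ℝ) (j : ℤ) (i : ℕ) : Set ℝ :=
  {t : ℝ | t ∈ Set.Icc (j : ℝ) ((j : ℝ) + 1) ∧ ∃ M : ℕ, M ≤ 2 ^ i ∧ 2 ^ i ≤ 2 * M ∧ ∃ ξ : ℝ,
    (M : ℝ) ^ (1 - η + ε) < ‖sm k M t ξ‖}

theorem bad_subT (k : ℕ) (η ε : ℝ) (hη : 0 ≤ η) (hη1 : η ≤ 1) (hε : 0 ≤ ε) (t : ℝ)
    (ht : ¬ ∃ C : ℝ, Hold k η ε C t) : ∀ i1 : ℕ, ∃ i : ℕ, i1 ≤ i ∧ t ∈ Bt k η ε ⌊t⌋ i := by
  intro i1
  by_contra hcon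
  push Not at hcon
  apply ht
  refine ⟨(2 : ℝ) ^ i1 + 1, ?_⟩
  intro N hN2 ξ a q _ _ _ _ _
  have hN : 1 ≤ N := by omega
  have hN' : (1 : ℝ) ≤ (N : ℝ) := by exact_mod_cast hN
  set R : ℝ := (N : ℝ) ^ (1 + ε) *
      (1 / (q : ℝ) + 1 / (N : ℝ) + (q : ℝ) / (N : ℝ) ^ k) ^ η with hR
  have h1 : (N : ℝ) ^ (1 - η + ε) ≤ R := big_le k N q η ε hη hN
  have h2 : 1 ≤ (N : ℝ) ^ (1 - η + ε) := Real.one_le_rpow hN' (by linarith)
  have h3 : ((2 : ℝ) ^ i1 + 1) * (N : ℝ) ^ (1 + ε) *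
      (1 / (q : ℝ) + 1 / (N : ℝ) + (q : ℝ) / (N : ℝ) ^ k) ^ η = ((2 : ℝ) ^ i1 + 1) * R := by
    rw [hR]; ring
  rw [h3]
  have hp : (0 : ℝ) < (2 : ℝ) ^ i1 := by positivity
  rcases le_total N (2 ^ i1) with hN2 | hN2
  · have h4 : (N : ℝ) ≤ (2 : ℝ) ^ i1 := by exact_mod_cast hN2
    refine (sm_le k N t ξ).trans ?_
    nlinarith
  · obtain ⟨i, hi1, hi2⟩ : ∃ i : ℕ, N ≤ 2 ^ i ∧ 2 ^ i ≤ 2 * N := by
      refine ⟨Nat.log 2 N + 1, (Nat.lt_pow_succ_log_self (by norm_num) N).le, ?_⟩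
      have := Nat.pow_log_le_self 2 (show N ≠ 0 by omega)
      rw [pow_succ]
      omega
    have hii : i1 ≤ i := by
      have : 2 ^ i1 ≤ 2 ^ i := hN2.trans hi1
      exact (Nat.pow_le_pow_iff_right (by norm_num)).mp this
    have h5 := hcon i hii
    have h6 : ‖sm k N t ξ‖ ≤ (N : ℝ) ^ (1 - η + ε) := by
      by_contra h7
      push Not at h7
      apply h5
      exact ⟨⟨Int.floor_le t, (Int.lt_floor_add_one t).le⟩, N, hi1, hi2, ξ, h7⟩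
    nlinarith

theorem coverT (s k : ℕ) (g η ε ρ : ℝ) (hM : Mv s k g) (hη1 : η ≤ 1) (hε : 0 ≤ ε)
    (hρ : 0 < ρ) (j : ℤ) :
    ∃ i0 : ℕ, ∀ i : ℕ, i0 ≤ i → ∃ S : Finset ℝ,
      (S.card : ℝ) ≤ ((2 : ℝ) ^ i) ^ ((k : ℝ) - (g - 1 - 2 * s * (η - ε)) + ρ) ∧
      Bt k η ε j i ⊆ ⋃ x ∈ S, Set.Icc x (x + ((2 : ℝ) ^ i) ^ (-(k : ℝ))) := by
  set r : ℝ := ρ / (2 * s + 2) with hr
  have hr0 : 0 < r := by positivity
  have hrρ : (2 * s + 2) * r = ρ := by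
    rw [hr]; field_simp
  set θ : ℝ := 1 - η + ε with hθ
  have hθ0 : 0 ≤ θ := by rw [hθ]; linarith
  obtain ⟨C, hC, hJ⟩ := hM r hr0
  obtain ⟨i1, h1⟩ := ev_log r hr0 ((2 : ℝ) ^ θ * (1 + 2 * Real.pi * 2 ^ k))
  obtain ⟨i2, h2⟩ := ev_pow r hr0 (3 * ((s : ℝ) + 1) * C)
  refine ⟨i1 + i2 + 1, fun i hi => ?_⟩
  have g1 := h1 i (by omega)
  have g2 := h2 i (by omega)
  set X : ℝ := (2 : ℝ) ^ i with hX
  have hX1 : (1 : ℝ) ≤ X := one_le_pow₀ (by norm_num)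
  have hX0 : (0 : ℝ) < X := by positivity
  set N : ℕ := 2 ^ i with hN
  have hNX : (N : ℝ) = X := by rw [hN]; push_cast; rfl
  have hN1 : 1 ≤ N := Nat.one_le_two_pow
  set lam : ℝ := X ^ (θ - r) with hlam
  have hlam0 : 0 < lam := by positivity
  set δ : ℝ := X ^ (-(k : ℝ)) with hδ
  have hδ0 : 0 < δ := by positivity
  have hδk : δ = 1 / (N : ℝ) ^ k := by
    rw [hδ, Real.rpow_neg hX0.le, Real.rpow_natCast, hNX, one_div]
  have hδ1 : δ ≤ 1 := by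
    rw [hδk, hNX]
    rw [div_le_one (by positivity)]
    exact one_le_pow₀ hX1
  set F : Set ℝ := {t : ℝ | t ∈ Set.Icc (((j - 1 : ℤ)) : ℝ) (((j + 2 : ℤ)) : ℝ) ∧ ∃ ξ : ℝ, lam ≤ ‖sm k N t ξ‖} with hF
  have hmeas := meas_le s k N (j - 1) (j + 2) lam (by omega) hlam0
  set V : ℝ := ((s : ℝ) * (N : ℝ) + 1) * (((((j + 2 : ℤ)) : ℝ) - (((j - 1 : ℤ)) : ℝ)) * (J s k N : ℝ)) / lam ^ (2 * s) with hV
  have hvu : ((((j + 2 : ℤ)) : ℝ) - (((j - 1 : ℤ)) : ℝ)) = 3 := by push_cast; ring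
  have hV0 : 0 ≤ V := by
    rw [hV, hvu]; positivity
  obtain ⟨S, hS1, hS2⟩ := S_COV_t (Bt k η ε j i) F δ V (j : ℝ) ((j : ℝ) + 1) hδ0 hV0 (fun t ht => ht.1) (by
    intro t ht t' htt
    obtain ⟨ht1, M, hM1, hM2, ξ, hξ⟩ := ht
    have htt2 := abs_le.mp htt
    refine ⟨⟨?_, ?_⟩, ?_⟩
    · push_cast; linarith [ht1.1, htt2.1]
    · push_cast; linarith [ht1.2, htt2.2]
    · by_contra hcon
      push Not at hcon
      have hlog : 0 ≤ 4 + 4 * Real.log N := by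
        have := Real.log_nonneg (show (1 : ℝ) ≤ N by rw [hNX]; exact hX1)
        linarith
      have k1 : ∀ m : ℕ, m ≤ N → ‖sm k m t' ξ‖ ≤ (4 + 4 * Real.log N) * lam := fun m hm =>
        S_MAX_t k N m t' lam hN1 hm (fun η' => (hcon η').le) ξ
      have k2 := shift_le k N M t t' ξ ((4 + 4 * Real.log N) * lam) hN1 hM1 (by positivity)
        (by rw [← hδk, abs_sub_comm]; exact htt) k1
      have hMX : X / 2 ≤ (M : ℝ) := by
        have : ((2 ^ i : ℕ) : ℝ) ≤ ((2 * M : ℕ) : ℝ) := by exact_mod_cast hM2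
        push_cast at this
        linarith
      have k3 : X ^ θ / 2 ^ θ ≤ (M : ℝ) ^ θ := by
        rw [← Real.div_rpow hX0.le (by norm_num)]
        exact Real.rpow_le_rpow (by positivity) hMX hθ0
      have k4 : X ^ θ = X ^ r * lam := by
        rw [hlam, ← Real.rpow_add hX0]; congr 1; ring
      have k5 : X ^ θ / 2 ^ θ < (1 + 2 * Real.pi * 2 ^ k) * ((4 + 4 * Real.log N) * lam) :=
        lt_of_le_of_lt k3 (lt_of_lt_of_le hξ k2)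
      rw [div_lt_iff₀ (by positivity), k4, hNX] at k5
      have k6 : (2 : ℝ) ^ θ * (1 + 2 * Real.pi * 2 ^ k) * (4 + 4 * Real.log X) * lam ≤ X ^ r * lam :=
        mul_le_mul_of_nonneg_right g1 hlam0.le
      have k7 : (1 + 2 * Real.pi * 2 ^ k) * ((4 + 4 * Real.log X) * lam) * 2 ^ θ =
          (2 : ℝ) ^ θ * (1 + 2 * Real.pi * 2 ^ k) * (4 + 4 * Real.log X) * lam := by ring
      rw [k7] at k5
      linarith) hmeas
  refine ⟨S, hS1.trans ?_, hS2⟩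
  rw [hV, hvu, hNX]
  have hJ' := hJ N hN1
  rw [hNX] at hJ'
  have hs0 : (0 : ℝ) ≤ s := by positivity
  have m1 : (s : ℝ) * X + 1 ≤ ((s : ℝ) + 1) * X := by nlinarith
  have m2 : lam ^ (2 * s) = X ^ ((θ - r) * (2 * s)) := by
    rw [hlam, ← Real.rpow_natCast, ← Real.rpow_mul hX0.le]
    push_cast
    rfl
  rw [m2, div_div, div_le_iff₀ (by positivity)]
  have m3 : X ^ ((k : ℝ) - (g - 1 - 2 * s * (η - ε)) + ρ) * (X ^ ((θ - r) * (2 * s)) * δ) =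
      X ^ r * X * X ^ (2 * (s : ℝ) - g + r) := by
    rw [hδ, ← Real.rpow_add hX0, ← Real.rpow_add hX0]
    have : X ^ r * X * X ^ (2 * (s : ℝ) - g + r) = X ^ (r + 1 + (2 * (s : ℝ) - g + r)) := by
      rw [Real.rpow_add hX0 (r + 1), Real.rpow_add hX0 r 1, Real.rpow_one]
    rw [this]
    congr 1
    rw [← hrρ, hθ]
    ring
  rw [m3]
  calc ((s : ℝ) * X + 1) * (3 * (J s k N : ℝ)) ≤ (((s : ℝ) + 1) * X) * (3 * (C * X ^ (2 * (s : ℝ) - g + r))) := by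
        apply mul_le_mul m1 (by linarith) (by positivity) (by positivity)
    _ = (3 * ((s : ℝ) + 1) * C) * X * X ^ (2 * (s : ℝ) - g + r) := by ring
    _ ≤ X ^ r * X * X ^ (2 * (s : ℝ) - g + r) := by
        apply mul_le_mul_of_nonneg_right _ (by positivity)
        exact mul_le_mul_of_nonneg_right g2 hX0.le

theorem dim_t (s k : ℕ) (g : ℝ) (hk : 1 ≤ k) (hM : Mv s k g) (η ε : ℝ) (hη : 0 ≤ η) (hη1 : η ≤ 1) (hε : 0 < ε) :
    dimH {t : ℝ | ¬ ∃ C : ℝ, Hold k η ε C t} ≤ ENNReal.ofReal (1 - (g - 1 - 2 * s * (η - ε)) / k) := by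
  have hk0 : (0 : ℝ) < k := by exact_mod_cast hk
  rcases le_or_gt η ε with hc | hc
  · have h1 : {t : ℝ | ¬ ∃ C : ℝ, Hold k η ε C t} = ∅ := by
      ext t
      simp only [Set.mem_setOf_eq, Set.mem_empty_iff_false, iff_false, not_not]
      refine ⟨1, ?_⟩
      intro N hN ξ a q _ _ _ _ _
      have hN' : (1 : ℝ) ≤ (N : ℝ) := by
        have : 1 ≤ N := by omega
        exact_mod_cast this
      refine (sm_le k N t ξ).trans ?_
      rw [one_mul]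
      refine le_trans ?_ (big_le k N q η ε hη (by omega))
      calc (N : ℝ) = (N : ℝ) ^ (1 : ℝ) := (Real.rpow_one _).symm
        _ ≤ (N : ℝ) ^ (1 - η + ε) := Real.rpow_le_rpow_of_exponent_le hN' (by linarith)
    rw [h1, dimH_empty]
    exact zero_le
  · set A : ℝ := 1 - (g - 1 - 2 * s * (η - ε)) / k with hA
    have hsub : {t : ℝ | ¬ ∃ C : ℝ, Hold k η ε C t} ⊆
        ⋃ j : ℤ, {t : ℝ | ∀ i1 : ℕ, ∃ i : ℕ, i1 ≤ i ∧ t ∈ Bt k η ε j i} := by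
      intro t ht
      rw [Set.mem_iUnion]
      exact ⟨⌊t⌋, bad_subT k η ε hη hη1 hε.le t ht⟩
    have hfin : ENNReal.ofReal (max A 0) ≤ ENNReal.ofReal A := by
      rw [ENNReal.ofReal_max, ENNReal.ofReal_zero, max_eq_left zero_le]
    refine le_trans ?_ hfin
    refine (dimH_mono hsub).trans ?_
    rw [dimH_iUnion]
    apply iSup_le
    intro j
    apply ENNReal.le_of_forall_pos_le_add
    intro ρ hρ _
    have hρ' : (0 : ℝ) < (ρ : ℝ) := by exact_mod_cast hρ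
    set D : ℝ := max A 0 + ρ with hD
    have hD0 : 0 < D := by
      have := le_max_right A 0
      rw [hD]; linarith
    have h1 := S_DIMG_t ((k : ℝ) - (g - 1 - 2 * s * (η - ε)) + k * ρ / 2) k D (Bt k η ε j) hk0 hD0
      (by
        have h2 : A ≤ max A 0 := le_max_left A 0
        have h3 : (k : ℝ) * A = k - (g - 1 - 2 * s * (η - ε)) := by
          rw [hA]; field_simp
        have h4 : (k : ℝ) * (A + ρ) ≤ k * D := by
          apply mul_le_mul_of_nonneg_left _ hk0.le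
          rw [hD]; linarith
        have h5 : 0 < (k : ℝ) * ρ := by positivity
        rw [← h3]
        linarith)
      (coverT s k g η ε (k * ρ / 2) hM hη1 hε.le (by positivity) j)
    refine h1.trans ?_
    rw [hD, ENNReal.ofReal_add (le_max_right A 0) hρ'.le, ENNReal.ofReal_coe_nnreal]

/-- the exceptional leading coefficients -/
theorem dim_lead (k i : ℕ) (hk : 2 ≤ k) (hi : 1 ≤ i) (hik : i ≤ k) (η ε : ℝ) (hη : 0 ≤ η) (hη1 : η ≤ 1)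
    (hε : 0 < ε) : dimH {t : ℝ | ¬ ∃ C : ℝ, Hold k η ε C t} ≤
      ENNReal.ofReal (1 - ((i : ℝ) - (2 ^ i + 2) * (η - ε)) / k) := by
  have h := dim_t (2 ^ (i - 1) + 1) k ((i : ℝ) + 1) (by omega) (Mv_all k i hk hi hik) η ε hη hη1 hε
  have e1 : (2 : ℝ) ^ i = 2 * 2 ^ (i - 1) := by
    rw [← pow_succ']; congr 1; omega
  have e2 : (i : ℝ) + 1 - 1 - 2 * ((2 ^ (i - 1) + 1 : ℕ) : ℝ) * (η - ε) = (i : ℝ) - (2 ^ i + 2) * (η - ε) := by
    push_cast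
    rw [e1]
    ring
  rw [e2] at h
  exact h

end Pool.Agent.Run7.h556.MW
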