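import Pool.Agent.Run7.h556.MW.Mo

/-! # Mean value estimates with exponents -/

set_option autoImplicit false

open Finset MeasureTheory

namespace Pool.Agent.Run7.h556.MW

open Pool.Agent.TH181.MW
open Pool.Agent.W928.MW (e sm e_add e_norm e_sub_re e_cont sm_le)

/-- mean value estimate of order `2 s`, the gain over the trivial estimate is `g` -/
def Mv (s k : ℕ) (g : ℝ) : Prop := ∀ δ : ℝ, 0 < δ → ∃ C : ℝ, 0 < C ∧ ∀ N : ℕ, 1 ≤ N →
  (J s k N : ℝ) ≤ C * (N : ℝ) ^ (2 * (s : ℝ) - g + δ)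

theorem Mv_two (k : ℕ) (hk : 2 ≤ k) : Mv 2 k 2 := by
  intro δ hδ
  refine ⟨2, by norm_num, fun N hN => ?_⟩
  have hN' : (1 : ℝ) ≤ N := by exact_mod_cast hN
  have h1 : (J 2 k N : ℝ) ≤ ((2 * N ^ 2 : ℕ) : ℝ) := by exact_mod_cast four_nat k N hk
  refine h1.trans ?_
  push_cast
  apply mul_le_mul_of_nonneg_left _ (by norm_num)
  rw [← Real.rpow_natCast]
  apply Real.rpow_le_rpow_of_exponent_le hN'
  push_cast
  linarith

/-- divisor bound up to `B N ^ k` -/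
theorem div_bd (B k : ℕ) (hB : 1 ≤ B) (δ : ℝ) (hδ : 0 < δ) : ∃ C : ℝ, 0 < C ∧ ∀ N : ℕ, 1 ≤ N → ∃ D : ℕ,
    (∀ n : ℕ, 1 ≤ n → n ≤ B * N ^ k → n.divisors.card ≤ D) ∧ (D : ℝ) ≤ C * (N : ℝ) ^ δ := by
  set η : ℝ := δ / (k + 1) with hη
  have hη0 : 0 < η := by positivity
  obtain ⟨C0, hC0, hC⟩ := Pool.Agent.Helper112.divisor_bound η hη0
  have hB' : (1 : ℝ) ≤ B := by exact_mod_cast hB
  refine ⟨C0 * (B : ℝ) ^ η, by positivity, fun N hN => ?_⟩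
  have hN' : (1 : ℝ) ≤ N := by exact_mod_cast hN
  have hN0 : (0 : ℝ) < N := by linarith
  refine ⟨⌊C0 * ((B : ℝ) * (N : ℝ) ^ k) ^ η⌋₊, ?_, ?_⟩
  · intro n hn hn2
    apply Nat.le_floor
    refine (hC n hn).trans ?_
    apply mul_le_mul_of_nonneg_left _ hC0.le
    apply Real.rpow_le_rpow (by positivity) _ hη0.le
    exact_mod_cast hn2
  · refine (Nat.floor_le (by positivity)).trans ?_
    rw [Real.mul_rpow (by positivity) (by positivity), ← mul_assoc]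
    apply mul_le_mul_of_nonneg_left _ (by positivity)
    rw [← Real.rpow_natCast, ← Real.rpow_mul hN0.le]
    apply Real.rpow_le_rpow_of_exponent_le hN'
    rw [hη, mul_div_assoc']
    rw [div_le_iff₀ (by positivity)]
    nlinarith

theorem Mv_three (k : ℕ) (hk : 2 ≤ k) : Mv 3 k 3 := by
  intro δ hδ
  obtain ⟨C, hC, h⟩ := div_bd (4 ^ k) k (Nat.one_le_pow _ _ (by norm_num)) (δ / 2) (by positivity)
  refine ⟨4 + 4 * C ^ 2, by positivity, fun N hN => ?_⟩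
  have hN' : (1 : ℝ) ≤ N := by exact_mod_cast hN
  have hN0 : (0 : ℝ) < N := by linarith
  obtain ⟨D, hD, hDC⟩ := h N hN
  have h1 := six_nat k N D hk (fun n hn hn2 => hD n hn (by rwa [← mul_pow]))
  have h2 : (J 3 k N : ℝ) ≤ ((4 * N ^ 3 + (2 * D) ^ 2 * N ^ 3 : ℕ) : ℝ) := by exact_mod_cast h1
  refine h2.trans ?_
  push_cast
  have e1 : (N : ℝ) ^ (2 * (3 : ℝ) - 3 + δ) = (N : ℝ) ^ 3 * (N : ℝ) ^ δ := by
    rw [← Real.rpow_natCast, ← Real.rpow_add hN0]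
    congr 1
    push_cast
    ring
  rw [e1]
  have h3 : (1 : ℝ) ≤ (N : ℝ) ^ δ := Real.one_le_rpow hN' hδ.le
  have h4 : (D : ℝ) ^ 2 ≤ C ^ 2 * (N : ℝ) ^ δ := by
    have h5 := pow_le_pow_left₀ (Nat.cast_nonneg D) hDC 2
    refine h5.trans (le_of_eq ?_)
    rw [mul_pow, ← Real.rpow_natCast ((N : ℝ) ^ (δ / 2)), ← Real.rpow_mul hN0.le]
    congr 2
    push_cast
    ring
  have h6 : (0 : ℝ) < (N : ℝ) ^ 3 := by positivity
  calc 4 * (N : ℝ) ^ 3 + (2 * (D : ℝ)) ^ 2 * (N : ℝ) ^ 3 = (N : ℝ) ^ 3 * (4 + 4 * (D : ℝ) ^ 2) := by ring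
    _ ≤ (N : ℝ) ^ 3 * (4 * (N : ℝ) ^ δ + 4 * (C ^ 2 * (N : ℝ) ^ δ)) := by
        apply mul_le_mul_of_nonneg_left _ h6.le
        linarith
    _ = (4 + 4 * C ^ 2) * ((N : ℝ) ^ 3 * (N : ℝ) ^ δ) := by ring

theorem Mv_step (s k j : ℕ) (hs : 1 ≤ s) (hj : 2 ≤ j) (hjk : j < k) (hM : Mv s k (j + 1)) :
    Mv (s + 2 ^ (j - 1)) k ((j + 1 : ℕ) + 1) := by
  intro δ hδ
  obtain ⟨C1, hC1, h1⟩ := hM δ hδ
  have hj0 : (0 : ℝ) < j := by
    have : 0 < j := by omega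
    exact_mod_cast this
  obtain ⟨C2, hC2, h2⟩ := div_bd s k hs (δ / j) (by positivity)
  set m : ℕ := 2 ^ j - j - 1 with hm
  have hjj : j + 1 ≤ 2 ^ j := Nat.lt_two_pow_self
  have hmr : (m : ℝ) = 2 ^ j - j - 1 := by
    have : m + j + 1 = 2 ^ j := by omega
    have h : ((m + j + 1 : ℕ) : ℝ) = ((2 ^ j : ℕ) : ℝ) := by rw [this]
    push_cast at h
    linarith
  refine ⟨3 ^ m * (((j + k : ℕ) : ℝ) * 3 ^ j * C1 + (2 * C2) ^ j * k), by positivity, fun N hN => ?_⟩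
  have hN' : (1 : ℝ) ≤ N := by exact_mod_cast hN
  have hN0 : (0 : ℝ) < N := by linarith
  obtain ⟨D, hD, hDC⟩ := h2 N hN
  refine (J_step s k N j D hs hj hjk hD).trans ?_
  have hJ := h1 N hN
  have h3 : (2 * (N : ℝ) + 1) ≤ 3 * N := by linarith
  have e0 : (N : ℝ) ^ (2 * ((s + 2 ^ (j - 1) : ℕ) : ℝ) - ((j + 1 : ℕ) + 1) + δ) =
      (N : ℝ) ^ m * (N : ℝ) ^ (2 * (s : ℝ) - 1 + δ) := by
    rw [← Real.rpow_natCast, ← Real.rpow_add hN0, hmr]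
    congr 1
    have : (2 : ℝ) ^ j = 2 * 2 ^ (j - 1) := by
      rw [← pow_succ']; congr 1; omega
    push_cast
    rw [this]
    ring
  rw [e0]
  have e1 : (N : ℝ) ^ j * (N : ℝ) ^ (2 * (s : ℝ) - (j + 1) + δ) = (N : ℝ) ^ (2 * (s : ℝ) - 1 + δ) := by
    rw [← Real.rpow_natCast, ← Real.rpow_add hN0]
    congr 1
    ring
  have e2 : (N : ℝ) ^ δ * (N : ℝ) ^ (2 * s - 1) = (N : ℝ) ^ (2 * (s : ℝ) - 1 + δ) := by
    rw [← Real.rpow_natCast, ← Real.rpow_add hN0]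
    congr 1
    have : ((2 * s - 1 : ℕ) : ℝ) = 2 * (s : ℝ) - 1 := by
      rw [Nat.cast_sub (by omega)]; push_cast; ring
    rw [this]
    ring
  have h5 : (((2 * D) ^ j * k : ℕ) : ℝ) ≤ (2 * C2) ^ j * k * (N : ℝ) ^ δ := by
    push_cast
    have h6 : (2 * (D : ℝ)) ^ j ≤ (2 * C2) ^ j * (N : ℝ) ^ δ := by
      have h7 : (2 * (D : ℝ)) ≤ (2 * C2) * (N : ℝ) ^ (δ / j) := by linarith
      refine (pow_le_pow_left₀ (by positivity) h7 j).trans (le_of_eq ?_)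
      rw [mul_pow, ← Real.rpow_natCast ((N : ℝ) ^ (δ / j)), ← Real.rpow_mul hN0.le]
      congr 2
      field_simp
    calc (2 * (D : ℝ)) ^ j * k ≤ ((2 * C2) ^ j * (N : ℝ) ^ δ) * k :=
          mul_le_mul_of_nonneg_right h6 (by positivity)
      _ = _ := by ring
  have hA : ((j + k : ℕ) : ℝ) * (2 * (N : ℝ) + 1) ^ j * J s k N ≤
      ((j + k : ℕ) : ℝ) * 3 ^ j * C1 * (N : ℝ) ^ (2 * (s : ℝ) - 1 + δ) := by
    calc ((j + k : ℕ) : ℝ) * (2 * (N : ℝ) + 1) ^ j * J s k N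
        ≤ ((j + k : ℕ) : ℝ) * (3 * (N : ℝ)) ^ j * (C1 * (N : ℝ) ^ (2 * (s : ℝ) - (j + 1) + δ)) := by
          apply mul_le_mul _ hJ (by positivity) (by positivity)
          apply mul_le_mul_of_nonneg_left _ (by positivity)
          exact pow_le_pow_left₀ (by positivity) h3 j
      _ = ((j + k : ℕ) : ℝ) * 3 ^ j * C1 * ((N : ℝ) ^ j * (N : ℝ) ^ (2 * (s : ℝ) - (j + 1) + δ)) := by
          rw [mul_pow]; ring
      _ = _ := by rw [e1]
  have hB : (((2 * D) ^ j * k : ℕ) : ℝ) * (N : ℝ) ^ (2 * s - 1) ≤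
      (2 * C2) ^ j * k * (N : ℝ) ^ (2 * (s : ℝ) - 1 + δ) := by
    calc (((2 * D) ^ j * k : ℕ) : ℝ) * (N : ℝ) ^ (2 * s - 1)
        ≤ ((2 * C2) ^ j * k * (N : ℝ) ^ δ) * (N : ℝ) ^ (2 * s - 1) :=
          mul_le_mul_of_nonneg_right h5 (by positivity)
      _ = (2 * C2) ^ j * k * ((N : ℝ) ^ δ * (N : ℝ) ^ (2 * s - 1)) := by ring
      _ = _ := by rw [e2]
  calc (2 * (N : ℝ) + 1) ^ m * (((j + k : ℕ) : ℝ) * (2 * (N : ℝ) + 1) ^ j * J s k N +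
        (((2 * D) ^ j * k : ℕ) : ℝ) * (N : ℝ) ^ (2 * s - 1))
      ≤ (3 * (N : ℝ)) ^ m * (((j + k : ℕ) : ℝ) * 3 ^ j * C1 * (N : ℝ) ^ (2 * (s : ℝ) - 1 + δ) +
        (2 * C2) ^ j * k * (N : ℝ) ^ (2 * (s : ℝ) - 1 + δ)) := by
        apply mul_le_mul (pow_le_pow_left₀ (by positivity) h3 m) (add_le_add hA hB) (by positivity) (by positivity)
    _ = 3 ^ m * (((j + k : ℕ) : ℝ) * 3 ^ j * C1 + (2 * C2) ^ j * k) *
        ((N : ℝ) ^ m * (N : ℝ) ^ (2 * (s : ℝ) - 1 + δ)) := by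
        rw [mul_pow]; ring

/-- Hua's lemma for the system of degrees `1, k` -/
theorem Mv_all (k i : ℕ) (hk : 2 ≤ k) (hi : 1 ≤ i) (hik : i ≤ k) : Mv (2 ^ (i - 1) + 1) k ((i : ℝ) + 1) := by
  induction i with
  | zero => omega
  | succ i ih =>
    rcases Nat.lt_or_ge i 2 with h | h
    · interval_cases i
      · have := Mv_two k hk
        norm_num
        exact this
      · have := Mv_three k hk
        norm_num
        exact this
    · have h1 := ih (by omega) (by omega)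
      have h2 := Mv_step (2 ^ (i - 1) + 1) k i (Nat.le_add_left 1 _) h (by omega) h1
      have e1 : 2 ^ (i + 1 - 1) + 1 = 2 ^ (i - 1) + 1 + 2 ^ (i - 1) := by
        have : 2 ^ i = 2 * 2 ^ (i - 1) := by
          rw [← pow_succ']; congr 1; omega
        have e : i + 1 - 1 = i := by omega
        rw [e, this]
        ring
      rw [e1]
      exact h2

end Pool.Agent.Run7.h556.MW
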