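import Pool.Agent.Run7.h556.MW.Six
import Pool.Agent.TH181.MX.Lin

/-! # Hua's lemma for the system of degrees `1, k` -/

set_option autoImplicit false

open Finset MeasureTheory

namespace Pool.Agent.Run7.h556.MW

open Pool.Agent.TH181.MW
open Pool.Agent.W928.MW (e sm e_add e_norm e_sub_re e_cont sm_le)

/-- Parseval in the linear coefficient -/
theorem Q_eq (s k N : ℕ) (t : ℝ) : Q s k N t = ∫ ξ in (0 : ℝ)..1, ‖sm k N t ξ‖ ^ (2 * s) := by
  have h := Pool.Agent.TH181.MX.parseval (range (s * N + 1)) (fun m : ℕ => (m : ℤ))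
    (fun a _ b _ h => by simpa using h) (fun m => p s k N m t) 0 1
  have h1 : ∀ ξ : ℝ, ‖sm k N t ξ‖ ^ (2 * s) = ‖∑ i ∈ range (s * N + 1), e (ξ * (((i : ℕ) : ℤ) : ℝ)) * p s k N i t‖ ^ 2 := by
    intro ξ
    have h2 : ‖sm k N t ξ‖ ^ (2 * s) = ‖sm k N t ξ ^ s‖ ^ 2 := by
      rw [norm_pow, ← pow_mul, mul_comm]
    rw [h2, sm_pow]
    simp only [Int.cast_natCast]
  simp_rw [h1]
  simp only [Int.cast_zero, Int.cast_one] at h
  rw [h]
  unfold Q
  ring

theorem sm_cont' (k N : ℕ) (t : ℝ) : Continuous (fun ξ : ℝ => sm k N t ξ) := by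
  have := Pool.Agent.TH181.MX.sm_cont k N t 0
  simpa using this

/-- the differenced sum, free of the linear coefficient -/
noncomputable def WW (k N j : ℕ) (t : ℝ) : ℝ :=
  ∑ z ∈ Lam N j, Real.cos (2 * Real.pi * (t * ((ph (fun n => n ^ k) z.1 z.2 : ℤ) : ℝ)))

theorem e_re (x : ℝ) : (e x).re = Real.cos (2 * Real.pi * x) := by
  unfold Pool.Agent.W928.MW.e
  rw [Complex.exp_re]
  simp

theorem weyl_W (k N j : ℕ) (hj : 2 ≤ j) (t ξ : ℝ) :
    ‖sm k N t ξ‖ ^ (2 ^ j) ≤ (2 * (N : ℝ) + 1) ^ (2 ^ j - j - 1) * WW k N j t := by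
  obtain ⟨i, rfl⟩ : ∃ i, j = i + 1 := ⟨j - 1, by omega⟩
  refine (weyl' k N i t ξ).trans (le_of_eq ?_)
  congr 1
  rw [Complex.re_sum]
  unfold WW Lam
  rw [sum_sigma]
  apply sum_congr rfl
  intro l hl
  rw [mem_LS] at hl
  unfold TT
  rw [Complex.re_sum]
  apply sum_congr rfl
  intro n _
  rw [ph_id l (by omega) n, Int.cast_zero, mul_zero, add_zero, e_re]

theorem Q_step (s k N j : ℕ) (hj : 2 ≤ j) (t : ℝ) :
    Q (s + 2 ^ (j - 1)) k N t ≤ (2 * (N : ℝ) + 1) ^ (2 ^ j - j - 1) * WW k N j t * Q s k N t := by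
  rw [Q_eq, Q_eq s, ← intervalIntegral.integral_const_mul]
  have hc := sm_cont' k N t
  apply intervalIntegral.integral_mono_on (by norm_num)
  · exact ((hc.norm).pow _).intervalIntegrable _ _
  · exact (((hc.norm).pow _).const_mul _).intervalIntegrable _ _
  · intro ξ _
    have h1 : 2 * (s + 2 ^ (j - 1)) = 2 ^ j + 2 * s := by
      have : 2 ^ j = 2 * 2 ^ (j - 1) := by
        rw [← pow_succ']; congr 1; omega
      omega
    rw [h1, pow_add]
    exact mul_le_mul_of_nonneg_right (weyl_W k N j hj t ξ) (by positivity)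

/-- the pairs of tuples with equal sums -/
noncomputable def PR (s N : ℕ) : Finset ((Fin s → ℕ) × (Fin s → ℕ)) :=
  ((tup s N) ×ˢ (tup s N)).filter (fun z => ∑ i, z.1 i = ∑ i, z.2 i)

/-- the difference of the sums of powers -/
def De (s k : ℕ) (z : (Fin s → ℕ) × (Fin s → ℕ)) : ℤ := ∑ i, (z.1 i : ℤ) ^ k - ∑ i, (z.2 i : ℤ) ^ k

theorem Q_cos (s k N : ℕ) (t : ℝ) :
    Q s k N t = ∑ z ∈ PR s N, Real.cos (2 * Real.pi * (t * ((De s k z : ℤ) : ℝ))) := by
  unfold Q
  have h1 : ∀ m ∈ range (s * N + 1), ‖p s k N m t‖ ^ 2 =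
      ∑ z ∈ (PR s N).filter (fun z => ∑ i, z.1 i = m), Real.cos (2 * Real.pi * (t * ((De s k z : ℤ) : ℝ))) := by
    intro m _
    rw [p_sq, ← sum_product']
    apply sum_congr
    · ext z
      unfold PR prs
      simp only [mem_filter, mem_product]
      constructor
      · rintro ⟨⟨a1, a2⟩, b1, b2⟩
        exact ⟨⟨⟨a1, b1⟩, a2.trans b2.symm⟩, a2⟩
      · rintro ⟨⟨⟨a1, b1⟩, d⟩, a2⟩
        exact ⟨⟨a1, a2⟩, b1, d.symm.trans a2⟩
    · intro z _
      unfold De
      congr 3
      push_cast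
      ring
  rw [sum_congr rfl h1]
  rw [← sum_fiberwise_of_maps_to (s := PR s N) (t := range (s * N + 1)) (g := fun z => ∑ i, z.1 i)]
  intro z hz
  unfold PR at hz
  rw [mem_filter, mem_product] at hz
  have := tup_sum_le s N z.1 hz.1.1
  rw [mem_range]
  omega

theorem int_cos_cos (a b : ℤ) : ∫ t in (0 : ℝ)..1, Real.cos (2 * Real.pi * (t * (a : ℝ))) *
    Real.cos (2 * Real.pi * (t * (b : ℝ))) = ((if a - b = 0 then (1 : ℝ) else 0) + (if a + b = 0 then 1 else 0)) / 2 := by
  have h1 : ∀ t : ℝ, Real.cos (2 * Real.pi * (t * (a : ℝ))) * Real.cos (2 * Real.pi * (t * (b : ℝ))) =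
      (1 / 2) * Real.cos (2 * Real.pi * (t * ((a - b : ℤ) : ℝ))) +
      (1 / 2) * Real.cos (2 * Real.pi * (t * ((a + b : ℤ) : ℝ))) := by
    intro t
    have e1 : 2 * Real.pi * (t * ((a - b : ℤ) : ℝ)) = 2 * Real.pi * (t * (a : ℝ)) - 2 * Real.pi * (t * (b : ℝ)) := by
      push_cast; ring
    have e2 : 2 * Real.pi * (t * ((a + b : ℤ) : ℝ)) = 2 * Real.pi * (t * (a : ℝ)) + 2 * Real.pi * (t * (b : ℝ)) := by
      push_cast; ring
    rw [e1, e2, Real.cos_sub, Real.cos_add]
    ring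
  simp_rw [h1]
  have hi : ∀ n : ℤ, IntervalIntegrable (fun t : ℝ => (1 / 2) * Real.cos (2 * Real.pi * (t * (n : ℝ)))) volume 0 1 := by
    intro n
    apply Continuous.intervalIntegrable
    fun_prop
  rw [intervalIntegral.integral_add (hi _) (hi _), intervalIntegral.integral_const_mul,
    intervalIntegral.integral_const_mul]
  have h2 := int_cos 0 1 (a - b)
  have h3 := int_cos 0 1 (a + b)
  simp only [Int.cast_zero, Int.cast_one, sub_zero] at h2 h3
  rw [h2, h3]
  ring

theorem WQ_int (s k N j : ℕ) : ∫ t in (0 : ℝ)..1, WW k N j t * Q s k N t =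
    ∑ z ∈ PR s N, ((((Lam N j).filter (fun y => ph (fun n => n ^ k) y.1 y.2 = De s k z)).card : ℝ) +
      (((Lam N j).filter (fun y => ph (fun n => n ^ k) y.1 y.2 = - De s k z)).card : ℝ)) / 2 := by
  have h1 : ∀ t : ℝ, WW k N j t * Q s k N t = ∑ z ∈ PR s N, ∑ y ∈ Lam N j,
      Real.cos (2 * Real.pi * (t * ((ph (fun n => n ^ k) y.1 y.2 : ℤ) : ℝ))) *
        Real.cos (2 * Real.pi * (t * ((De s k z : ℤ) : ℝ))) := by
    intro t
    rw [Q_cos]
    unfold WW
    rw [sum_mul_sum, sum_comm]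
  simp_rw [h1]
  rw [intervalIntegral.integral_finsetSum]
  · apply sum_congr rfl
    intro z _
    rw [intervalIntegral.integral_finsetSum]
    · simp_rw [int_cos_cos]
      rw [← sum_div, sum_add_distrib]
      congr 2
      · rw [sum_ite, sum_const_zero, add_zero, sum_const, nsmul_eq_mul, mul_one]
        congr 2
        apply filter_congr
        intro y _
        constructor <;> intro h <;> linarith
      · rw [sum_ite, sum_const_zero, add_zero, sum_const, nsmul_eq_mul, mul_one]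
        congr 2
        apply filter_congr
        intro y _
        constructor <;> intro h <;> linarith
    · intro y _
      apply Continuous.intervalIntegrable
      fun_prop
  · intro z _
    apply Continuous.intervalIntegrable
    fun_prop

theorem PR_card (s N : ℕ) (hs : 1 ≤ s) : (PR s N).card ≤ N ^ (2 * s - 1) := by
  classical
  obtain ⟨r, rfl⟩ : ∃ r, s = r + 1 := ⟨s - 1, by omega⟩
  have h1 : (PR (r + 1) N).card ≤ ((tup (r + 1) N) ×ˢ (tup r N)).card := by
    apply card_le_card_of_injOn (fun z => (z.2, fun i : Fin r => z.1 i.succ))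
    · intro z hz
      unfold PR at hz
      rw [mem_coe, mem_filter, mem_product] at hz
      rw [mem_coe, mem_product]
      refine ⟨hz.1.2, ?_⟩
      have := hz.1.1
      unfold tup at this ⊢
      rw [Fintype.mem_piFinset] at this ⊢
      intro i
      exact this i.succ
    · intro z hz z' hz' heq
      unfold PR at hz hz'
      rw [mem_coe, mem_filter, mem_product] at hz hz'
      simp only [Prod.mk.injEq] at heq
      obtain ⟨g1, g2⟩ := heq
      have g3 : ∀ i : Fin r, z.1 i.succ = z'.1 i.succ := fun i => congrFun g2 i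
      have g4 := hz.2
      have g5 := hz'.2
      rw [Fin.sum_univ_succ] at g4 g5
      have g6 : ∑ i : Fin r, z.1 i.succ = ∑ i : Fin r, z'.1 i.succ := sum_congr rfl (fun i _ => g3 i)
      have g7 : ∑ i, z.2 i = ∑ i, z'.2 i := by rw [g1]
      refine Prod.ext (funext fun i => ?_) g1
      refine Fin.cases ?_ (fun i => g3 i) i
      omega
  refine h1.trans (le_of_eq ?_)
  rw [card_product]
  unfold tup
  rw [Fintype.card_piFinset, Fintype.card_piFinset]
  simp only [Nat.card_Icc, Nat.add_sub_cancel, prod_const, card_univ, Fintype.card_fin]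
  rw [← pow_add]
  congr 1
  omega

theorem J_eq (s k N : ℕ) : J s k N = ((PR s N).filter (fun z => De s k z = 0)).card := by
  unfold J PR
  rw [filter_filter]
  congr 1
  apply filter_congr
  intro z _
  unfold De
  constructor
  · rintro ⟨h1, h2⟩
    refine ⟨h1, ?_⟩
    have : ((∑ i, z.1 i ^ k : ℕ) : ℤ) = ((∑ i, z.2 i ^ k : ℕ) : ℤ) := by rw [h2]
    push_cast at this
    linarith
  · rintro ⟨h1, h2⟩
    refine ⟨h1, ?_⟩
    have : ((∑ i, z.1 i ^ k : ℕ) : ℤ) = ((∑ i, z.2 i ^ k : ℕ) : ℤ) := by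
      push_cast
      linarith
    exact_mod_cast this

theorem De_le (s k N : ℕ) (z : (Fin s → ℕ) × (Fin s → ℕ)) (hz : z ∈ PR s N) : (De s k z).natAbs ≤ s * N ^ k := by
  unfold PR at hz
  rw [mem_filter, mem_product] at hz
  obtain ⟨⟨h1, h2⟩, _⟩ := hz
  unfold tup at h1 h2
  rw [Fintype.mem_piFinset] at h1 h2
  have g1 : ∑ i, (z.1 i : ℤ) ^ k ≤ s * (N : ℤ) ^ k := by
    calc ∑ i, (z.1 i : ℤ) ^ k ≤ ∑ _i : Fin s, (N : ℤ) ^ k := by
          apply sum_le_sum
          intro i _
          apply pow_le_pow_left₀ (by positivity)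
          exact_mod_cast (mem_Icc.mp (h1 i)).2
      _ = s * (N : ℤ) ^ k := by simp
  have g2 : ∑ i, (z.2 i : ℤ) ^ k ≤ s * (N : ℤ) ^ k := by
    calc ∑ i, (z.2 i : ℤ) ^ k ≤ ∑ _i : Fin s, (N : ℤ) ^ k := by
          apply sum_le_sum
          intro i _
          apply pow_le_pow_left₀ (by positivity)
          exact_mod_cast (mem_Icc.mp (h2 i)).2
      _ = s * (N : ℤ) ^ k := by simp
  have g3 : 0 ≤ ∑ i, (z.1 i : ℤ) ^ k := by positivity
  have g4 : 0 ≤ ∑ i, (z.2 i : ℤ) ^ k := by positivity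
  have g5 : |De s k z| ≤ s * (N : ℤ) ^ k := by
    unfold De
    rw [abs_le]
    constructor <;> linarith
  have g6 : ((De s k z).natAbs : ℤ) ≤ ((s * N ^ k : ℕ) : ℤ) := by
    rw [Int.natCast_natAbs]
    push_cast
    exact g5
  exact_mod_cast g6

/-- the induction step -/
theorem J_step (s k N j D : ℕ) (hs : 1 ≤ s) (hj : 2 ≤ j) (hjk : j < k)
    (hD : ∀ n : ℕ, 1 ≤ n → n ≤ s * N ^ k → n.divisors.card ≤ D) :
    (J (s + 2 ^ (j - 1)) k N : ℝ) ≤ (2 * (N : ℝ) + 1) ^ (2 ^ j - j - 1) *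
      (((j + k : ℕ) : ℝ) * (2 * (N : ℝ) + 1) ^ j * J s k N + (((2 * D) ^ j * k : ℕ) : ℝ) * (N : ℝ) ^ (2 * s - 1)) := by
  classical
  have h1 := int_Q (s + 2 ^ (j - 1)) k N 0 1
  simp only [Int.cast_zero, Int.cast_one, sub_zero, one_mul] at h1
  rw [← h1]
  have h2 : ∫ t in (0 : ℝ)..1, Q (s + 2 ^ (j - 1)) k N t ≤
      ∫ t in (0 : ℝ)..1, (2 * (N : ℝ) + 1) ^ (2 ^ j - j - 1) * (WW k N j t * Q s k N t) := by
    apply intervalIntegral.integral_mono_on (by norm_num)
    · exact (Q_cont _ k N).intervalIntegrable _ _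
    · apply Continuous.intervalIntegrable
      have hc := Q_cont s k N
      have hw : Continuous (WW k N j) := by
        unfold WW
        fun_prop
      fun_prop
    · intro t _
      have := Q_step s k N j hj t
      rw [mul_assoc] at this
      exact this
  refine h2.trans ?_
  rw [intervalIntegral.integral_const_mul]
  apply mul_le_mul_of_nonneg_left _ (by positivity)
  rw [WQ_int, ← sum_filter_add_sum_filter_not (PR s N) (fun z => De s k z = 0)]
  apply add_le_add
  · have h3 : ∀ z ∈ (PR s N).filter (fun z => De s k z = 0),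
        ((((Lam N j).filter (fun y => ph (fun n => n ^ k) y.1 y.2 = De s k z)).card : ℝ) +
        (((Lam N j).filter (fun y => ph (fun n => n ^ k) y.1 y.2 = - De s k z)).card : ℝ)) / 2 ≤
        ((j + k : ℕ) : ℝ) * (2 * (N : ℝ) + 1) ^ j := by
      intro z hz
      rw [mem_filter] at hz
      rw [hz.2, neg_zero]
      have h4 := Lam_zero k N j hjk
      have h5 : (((Lam N j).filter (fun y => ph (fun n => n ^ k) y.1 y.2 = 0)).card : ℝ) ≤
          (((j + k) * (2 * N + 1) ^ j : ℕ) : ℝ) := by exact_mod_cast h4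
      push_cast at h5 ⊢
      linarith
    refine (sum_le_sum h3).trans (le_of_eq ?_)
    rw [sum_const, nsmul_eq_mul, J_eq]
    ring
  · have h3 : ∀ z ∈ (PR s N).filter (fun z => ¬ De s k z = 0),
        ((((Lam N j).filter (fun y => ph (fun n => n ^ k) y.1 y.2 = De s k z)).card : ℝ) +
        (((Lam N j).filter (fun y => ph (fun n => n ^ k) y.1 y.2 = - De s k z)).card : ℝ)) / 2 ≤
        (((2 * D) ^ j * k : ℕ) : ℝ) := by
      intro z hz
      rw [mem_filter] at hz
      have h6 : (De s k z).natAbs.divisors.card ≤ D := by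
        apply hD
        · have := Int.natAbs_ne_zero.mpr hz.2
          omega
        · exact De_le s k N z hz.1
      have h4 := Lam_nonzero k N j D hjk (De s k z) hz.2 h6
      have h5 := Lam_nonzero k N j D hjk (-De s k z) (neg_ne_zero.mpr hz.2) (by rwa [Int.natAbs_neg])
      have h4' : (((Lam N j).filter (fun y => ph (fun n => n ^ k) y.1 y.2 = De s k z)).card : ℝ) ≤
          (((2 * D) ^ j * k : ℕ) : ℝ) := by exact_mod_cast h4
      have h5' : (((Lam N j).filter (fun y => ph (fun n => n ^ k) y.1 y.2 = - De s k z)).card : ℝ) ≤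
          (((2 * D) ^ j * k : ℕ) : ℝ) := by exact_mod_cast h5
      linarith
    refine (sum_le_sum h3).trans ?_
    rw [sum_const, nsmul_eq_mul, mul_comm]
    apply mul_le_mul_of_nonneg_left _ (by positivity)
    have h7 := (card_filter_le (PR s N) (fun z => ¬ De s k z = 0)).trans (PR_card s N hs)
    exact_mod_cast h7

end Pool.Agent.Run7.h556.MW
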