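import Pool.Agent.TH181.MW.HuaB

/-! # Solutions of the system of degrees `1, k` in four and in six variables -/

set_option autoImplicit false

open Finset

namespace Pool.Agent.Run7.h556.MW

open Pool.Agent.TH181.MW (tup J)

/-- strict convexity of `x ^ k` -/
theorem conv4 {k : ℕ} (hk : 2 ≤ k) (p q x y : ℝ) (hp : 0 ≤ p) (hpx : p < x) (hxq : x < q)
    (hs : x + y = p + q) : x ^ k + y ^ k < p ^ k + q ^ k := by
  have hpq : p < q := hpx.trans hxq
  have hd : 0 < q - p := by linarith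
  have hc := strictConvexOn_pow hk
  set l : ℝ := (x - p) / (q - p) with hl
  have hl0 : 0 < l := div_pos (by linarith) hd
  have hl1 : 0 < 1 - l := by
    rw [hl, sub_pos, div_lt_one hd]; linarith
  have hlm : l * (q - p) = x - p := by
    rw [hl]; field_simp
  have h1 := hc.2 (show p ∈ Set.Ici (0 : ℝ) from hp) (show q ∈ Set.Ici (0 : ℝ) from (hp.trans hpq.le)) hpq.ne
    hl1 hl0 (by ring)
  have h2 := hc.2 (show p ∈ Set.Ici (0 : ℝ) from hp) (show q ∈ Set.Ici (0 : ℝ) from (hp.trans hpq.le)) hpq.ne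
    hl0 hl1 (by ring)
  simp only [smul_eq_mul] at h1 h2
  have e1 : (1 - l) * p + l * q = x := by linarith
  have e2 : l * p + (1 - l) * q = y := by linarith
  rw [e1] at h1
  rw [e2] at h2
  have e3 : (1 - l) * p ^ k + l * q ^ k + (l * p ^ k + (1 - l) * q ^ k) = p ^ k + q ^ k := by ring
  linarith

/-- `a ^ k + b ^ k = c ^ k + (a + b - c) ^ k` has only the trivial solutions -/
theorem triv {k : ℕ} (hk : 2 ≤ k) (a b c : ℤ) (ha : 1 ≤ a) (hb : 1 ≤ b) (hc : 1 ≤ c)
    (h : a ^ k + b ^ k - c ^ k = (a + b - c) ^ k) : a = c ∨ b = c := by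
  by_contra hcon
  push Not at hcon
  obtain ⟨h1, h2⟩ := hcon
  have ha' : (1 : ℝ) ≤ (a : ℝ) := by exact_mod_cast ha
  have hb' : (1 : ℝ) ≤ (b : ℝ) := by exact_mod_cast hb
  have hc' : (1 : ℝ) ≤ (c : ℝ) := by exact_mod_cast hc
  have h' : (a : ℝ) ^ k + (b : ℝ) ^ k = (c : ℝ) ^ k + ((a : ℝ) + b - c) ^ k := by
    have : (((a ^ k + b ^ k - c ^ k : ℤ)) : ℝ) = (((a + b - c) ^ k : ℤ) : ℝ) := by rw [h]
    push_cast at this
    linarith
  set d : ℝ := (a : ℝ) + b - c with hd
  rcases lt_or_ge d 0 with h0 | h0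
  · have g1 := conv4 hk 0 ((a : ℝ) + b) a b le_rfl (by linarith) (by linarith) (by ring)
    have g2 := conv4 hk 0 (c : ℝ) ((a : ℝ) + b) (-d) le_rfl (by linarith) (by linarith) (by rw [hd]; ring)
    have g3 : (0 : ℝ) ^ k = 0 := zero_pow (by omega)
    have g4 : -((-d) ^ k) ≤ d ^ k := by
      have : |d ^ k| = (-d) ^ k := by
        rw [abs_pow, abs_of_neg h0]
      rw [← this]
      exact neg_abs_le _
    rw [g3] at g1 g2
    linarith
  · rcases lt_trichotomy (a : ℤ) c with g | g | g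
    · have ga : (a : ℝ) < c := by exact_mod_cast g
      rcases lt_trichotomy (b : ℤ) c with f | f | f
      · have gb : (b : ℝ) < c := by exact_mod_cast f
        have g1 := conv4 hk d (c : ℝ) a b h0 (by rw [hd]; linarith) ga (by rw [hd]; ring)
        linarith
      · exact h2 f
      · have gb : (c : ℝ) < b := by exact_mod_cast f
        have g1 := conv4 hk (a : ℝ) b c d (by linarith) ga gb (by rw [hd]; ring)
        linarith
    · exact h1 g
    · have ga : (c : ℝ) < a := by exact_mod_cast g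
      rcases lt_trichotomy (b : ℤ) c with f | f | f
      · have gb : (b : ℝ) < c := by exact_mod_cast f
        have g1 := conv4 hk (b : ℝ) a c d (by linarith) gb ga (by rw [hd]; ring)
        linarith
      · exact h2 f
      · have gb : (c : ℝ) < b := by exact_mod_cast f
        have g1 := conv4 hk (c : ℝ) d a b (by linarith) ga (by rw [hd]; linarith) (by rw [hd]; ring)
        linarith

/-- the box -/
noncomputable def box (N : ℕ) : Finset (ℤ × ℤ × ℤ) := (Icc 1 (N : ℤ)) ×ˢ ((Icc 1 (N : ℤ)) ×ˢ (Icc 1 (N : ℤ)))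

theorem mem_box {N : ℕ} {v : ℤ × ℤ × ℤ} : v ∈ box N ↔
    (1 ≤ v.1 ∧ v.1 ≤ N) ∧ (1 ≤ v.2.1 ∧ v.2.1 ≤ N) ∧ (1 ≤ v.2.2 ∧ v.2.2 ≤ N) := by
  unfold box
  simp only [mem_product, mem_Icc]

theorem card_box (N : ℕ) : (box N).card = N ^ 3 := by
  unfold box
  rw [card_product, card_product, Int.card_Icc]
  have : ((N : ℤ) + 1 - 1).toNat = N := by omega
  rw [this]; ring

/-- the linear form -/
def li (v : ℤ × ℤ × ℤ) : ℤ := v.1 + v.2.1 - v.2.2

/-- the form of degree `k` -/
def fk (k : ℕ) (v : ℤ × ℤ × ℤ) : ℤ := v.1 ^ k + v.2.1 ^ k - v.2.2 ^ k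

/-- the number of representations -/
noncomputable def RR (k N : ℕ) (u U : ℤ) : ℕ := ((box N).filter (fun v => li v = u ∧ fk k v = U)).card

theorem RR_deg {k : ℕ} (hk : 2 ≤ k) (N : ℕ) (u : ℤ) : RR k N u (u ^ k) ≤ 2 * N := by
  classical
  have hsub : (box N).filter (fun v => li v = u ∧ fk k v = u ^ k) ⊆
      ((Icc 1 (N : ℤ)).image (fun c => (c, u, c))) ∪ ((Icc 1 (N : ℤ)).image (fun c => (u, c, c))) := by
    intro v hv
    rw [mem_filter, mem_box] at hv
    obtain ⟨⟨h1, h2, h3⟩, h4, h5⟩ := hv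
    obtain ⟨a, b, c⟩ := v
    simp only [li, fk] at h1 h2 h3 h4 h5
    rw [← h4] at h5
    rw [mem_union, mem_image, mem_image]
    rcases triv hk a b c h1.1 h2.1 h3.1 h5 with g | g
    · left
      refine ⟨c, mem_Icc.mpr h3, ?_⟩
      rw [← g, ← h4, g]
      simp
    · right
      refine ⟨c, mem_Icc.mpr h3, ?_⟩
      rw [← h4, g]
      simp
  refine (card_le_card hsub).trans ((card_union_le _ _).trans ?_)
  have h1 : (Icc 1 (N : ℤ)).card = N := by rw [Int.card_Icc]; omega
  have h2 := card_image_le (s := Icc 1 (N : ℤ)) (f := fun c => (c, u, c))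
  have h3 := card_image_le (s := Icc 1 (N : ℤ)) (f := fun c => (u, c, c))
  omega

theorem deg_card {k : ℕ} (hk : 2 ≤ k) (N : ℕ) :
    ((box N).filter (fun v => fk k v = li v ^ k)).card ≤ 2 * N ^ 2 := by
  classical
  have hsub : (box N).filter (fun v => fk k v = li v ^ k) ⊆
      (((Icc 1 (N : ℤ)) ×ˢ (Icc 1 (N : ℤ))).image (fun c => (c.1, c.2, c.1))) ∪
      (((Icc 1 (N : ℤ)) ×ˢ (Icc 1 (N : ℤ))).image (fun c => (c.2, c.1, c.1))) := by
    intro v hv
    rw [mem_filter, mem_box] at hv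
    obtain ⟨⟨h1, h2, h3⟩, h5⟩ := hv
    obtain ⟨a, b, c⟩ := v
    simp only [li, fk] at h1 h2 h3 h5
    rw [mem_union, mem_image, mem_image]
    rcases triv hk a b c h1.1 h2.1 h3.1 h5 with g | g
    · left
      refine ⟨(c, b), mem_product.mpr ⟨mem_Icc.mpr h3, mem_Icc.mpr h2⟩, ?_⟩
      rw [g]
    · right
      refine ⟨(c, a), mem_product.mpr ⟨mem_Icc.mpr h3, mem_Icc.mpr h1⟩, ?_⟩
      rw [g]
  refine (card_le_card hsub).trans ((card_union_le _ _).trans ?_)
  have h1 : ((Icc 1 (N : ℤ)) ×ˢ (Icc 1 (N : ℤ))).card = N ^ 2 := by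
    rw [card_product, Int.card_Icc]
    have : ((N : ℤ) + 1 - 1).toNat = N := by omega
    rw [this]; ring
  have h2 := card_image_le (s := (Icc 1 (N : ℤ)) ×ˢ (Icc 1 (N : ℤ))) (f := fun c => (c.1, c.2, c.1))
  have h3 := card_image_le (s := (Icc 1 (N : ℤ)) ×ˢ (Icc 1 (N : ℤ))) (f := fun c => (c.2, c.1, c.1))
  omega

theorem dvd_one (k : ℕ) (a b c : ℤ) : (a - c) ∣ (a + b - c) ^ k - (a ^ k + b ^ k - c ^ k) := by
  have h1 : (a - c) ∣ (a + b - c) ^ k - b ^ k := by
    have := sub_dvd_pow_sub_pow (a + b - c) b k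
    have e : a + b - c - b = a - c := by ring
    rwa [e] at this
  have h2 : (a - c) ∣ a ^ k - c ^ k := sub_dvd_pow_sub_pow a c k
  have e : (a + b - c) ^ k - (a ^ k + b ^ k - c ^ k) = ((a + b - c) ^ k - b ^ k) - (a ^ k - c ^ k) := by ring
  rw [e]
  exact dvd_sub h1 h2

theorem dvd_two (k : ℕ) (a b c : ℤ) : (b - c) ∣ (a + b - c) ^ k - (a ^ k + b ^ k - c ^ k) := by
  have := dvd_one k b a c
  have e : (b + a - c) ^ k - (b ^ k + a ^ k - c ^ k) = (a + b - c) ^ k - (a ^ k + b ^ k - c ^ k) := by ring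
  rwa [e] at this

theorem RR_nondeg (k N D : ℕ) (u U : ℤ) (hne : u ^ k - U ≠ 0) (hD : (u ^ k - U).natAbs.divisors.card ≤ D) :
    RR k N u U ≤ (2 * D) ^ 2 := by
  classical
  set w : ℤ := u ^ k - U with hw
  set S' : Finset ℤ := (w.natAbs.divisors).image (fun d : ℕ => (d : ℤ)) ∪
    (w.natAbs.divisors).image (fun d : ℕ => -(d : ℤ)) with hS'
  have hS'card : S'.card ≤ 2 * D := by
    have h2 := card_union_le ((w.natAbs.divisors).image (fun d : ℕ => (d : ℤ)))
      ((w.natAbs.divisors).image (fun d : ℕ => -(d : ℤ)))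
    have h3 := card_image_le (s := w.natAbs.divisors) (f := fun d : ℕ => (d : ℤ))
    have h4 := card_image_le (s := w.natAbs.divisors) (f := fun d : ℕ => -(d : ℤ))
    rw [hS']
    omega
  have hmem : ∀ h : ℤ, h ∣ w → h ∈ S' := by
    intro h hh
    have h6 : h.natAbs ∈ w.natAbs.divisors := by
      rw [Nat.mem_divisors]
      exact ⟨Int.natAbs_dvd_natAbs.mpr hh, Int.natAbs_ne_zero.mpr hne⟩
    rw [hS', mem_union, mem_image, mem_image]
    rcases le_total 0 h with h0 | h0
    · left; exact ⟨_, h6, by omega⟩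
    · right; exact ⟨_, h6, by omega⟩
  unfold RR
  have h1 : ((box N).filter (fun v => li v = u ∧ fk k v = U)).card ≤ (S' ×ˢ S').card := by
    apply card_le_card_of_injOn (fun v => (v.1 - v.2.2, v.2.1 - v.2.2))
    · intro v hv
      rw [mem_coe, mem_filter] at hv
      obtain ⟨_, h4, h5⟩ := hv
      obtain ⟨a, b, c⟩ := v
      simp only [li, fk] at h4 h5
      rw [mem_coe, mem_product]
      have e : w = (a + b - c) ^ k - (a ^ k + b ^ k - c ^ k) := by rw [hw, h4, h5]
      refine ⟨hmem _ ?_, hmem _ ?_⟩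
      · rw [e]; exact dvd_one k a b c
      · rw [e]; exact dvd_two k a b c
    · intro v hv v' hv' heq
      rw [mem_coe, mem_filter] at hv hv'
      obtain ⟨_, h4, _⟩ := hv
      obtain ⟨_, h4', _⟩ := hv'
      obtain ⟨a, b, c⟩ := v
      obtain ⟨a', b', c'⟩ := v'
      simp only [li] at h4 h4'
      simp only [Prod.mk.injEq] at heq ⊢
      obtain ⟨g1, g2⟩ := heq
      refine ⟨by omega, by omega, by omega⟩
  refine h1.trans ?_
  rw [card_product, sq]
  exact Nat.mul_le_mul hS'card hS'card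

theorem w_le (k N : ℕ) (hk : 1 ≤ k) (v : ℤ × ℤ × ℤ) (hv : v ∈ box N) :
    (li v ^ k - fk k v).natAbs ≤ (4 * N) ^ k := by
  rw [mem_box] at hv
  obtain ⟨a, b, c⟩ := v
  obtain ⟨h1, h2, h3⟩ := hv
  simp only at h1 h2 h3
  have hN0 : (0 : ℤ) ≤ (N : ℤ) := by positivity
  have g0 : |a + b - c| ≤ 2 * (N : ℤ) := by
    rw [abs_le]; constructor <;> omega
  have g1 : |(a + b - c) ^ k| ≤ (2 * (N : ℤ)) ^ k := by
    rw [abs_pow]
    exact pow_le_pow_left₀ (abs_nonneg _) g0 k
  have ga : a ^ k ≤ (N : ℤ) ^ k := pow_le_pow_left₀ (by omega) h1.2 k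
  have gb : b ^ k ≤ (N : ℤ) ^ k := pow_le_pow_left₀ (by omega) h2.2 k
  have gc : c ^ k ≤ (N : ℤ) ^ k := pow_le_pow_left₀ (by omega) h3.2 k
  have ga0 : 0 ≤ a ^ k := pow_nonneg (by omega) k
  have gb0 : 0 ≤ b ^ k := pow_nonneg (by omega) k
  have gc0 : 0 ≤ c ^ k := pow_nonneg (by omega) k
  have g2 : |a ^ k + b ^ k - c ^ k| ≤ (2 * (N : ℤ)) ^ k := by
    have g3 : 2 * (N : ℤ) ^ k ≤ (2 * (N : ℤ)) ^ k := by
      rw [mul_pow]
      apply mul_le_mul_of_nonneg_right _ (by positivity)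
      calc (2 : ℤ) = 2 ^ 1 := by norm_num
        _ ≤ 2 ^ k := pow_le_pow_right₀ (by norm_num) hk
    rw [abs_le]; constructor <;> nlinarith
  have g4 : |(a + b - c) ^ k - (a ^ k + b ^ k - c ^ k)| ≤ (4 * (N : ℤ)) ^ k := by
    have g5 := abs_sub ((a + b - c) ^ k) (a ^ k + b ^ k - c ^ k)
    have g6 : 2 * (2 * (N : ℤ)) ^ k ≤ (4 * (N : ℤ)) ^ k := by
      have : (4 * (N : ℤ)) ^ k = 2 ^ k * (2 * (N : ℤ)) ^ k := by rw [← mul_pow]; congr 1; ring
      rw [this]
      apply mul_le_mul_of_nonneg_right _ (by positivity)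
      calc (2 : ℤ) = 2 ^ 1 := by norm_num
        _ ≤ 2 ^ k := pow_le_pow_right₀ (by norm_num) hk
    linarith
  simp only [li, fk]
  have : (((a + b - c) ^ k - (a ^ k + b ^ k - c ^ k)).natAbs : ℤ) ≤ ((4 * N : ℕ) : ℤ) ^ k := by
    rw [Int.natCast_natAbs]
    push_cast
    exact g4
  exact_mod_cast this

/-- the number of solutions in six variables -/
theorem six_nat (k N D : ℕ) (hk : 2 ≤ k)
    (hD : ∀ n : ℕ, 1 ≤ n → n ≤ (4 * N) ^ k → n.divisors.card ≤ D) :
    J 3 k N ≤ 4 * N ^ 3 + (2 * D) ^ 2 * N ^ 3 := by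
  classical
  have h1 : J 3 k N ≤ ((box N ×ˢ box N).filter (fun p => li p.2 = li p.1 ∧ fk k p.2 = fk k p.1)).card := by
    unfold J
    apply card_le_card_of_injOn (fun z : (Fin 3 → ℕ) × (Fin 3 → ℕ) =>
      (((z.1 0 : ℤ), (z.1 1 : ℤ), (z.2 0 : ℤ)), ((z.2 1 : ℤ), (z.2 2 : ℤ), (z.1 2 : ℤ))))
    · intro z hz
      rw [mem_coe, mem_filter, mem_product] at hz
      obtain ⟨⟨h2, h3⟩, h4, h5⟩ := hz
      unfold tup at h2 h3
      rw [Fintype.mem_piFinset] at h2 h3
      have g := fun i => mem_Icc.mp (h2 i)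
      have g' := fun i => mem_Icc.mp (h3 i)
      rw [mem_coe, mem_filter, mem_product, mem_box, mem_box]
      rw [Fin.sum_univ_three, Fin.sum_univ_three] at h4 h5
      have g0 := g 0
      have g1 := g 1
      have g2 := g 2
      have g0' := g' 0
      have g1' := g' 1
      have g2' := g' 2
      simp only [li, fk]
      refine ⟨⟨⟨?_, ?_, ?_⟩, ⟨?_, ?_, ?_⟩⟩, ?_, ?_⟩
      · constructor <;> omega
      · constructor <;> omega
      · constructor <;> omega
      · constructor <;> omega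
      · constructor <;> omega
      · constructor <;> omega
      · omega
      · have : ((z.1 0 ^ k + z.1 1 ^ k + z.1 2 ^ k : ℕ) : ℤ) = ((z.2 0 ^ k + z.2 1 ^ k + z.2 2 ^ k : ℕ) : ℤ) := by
          rw [h5]
        push_cast at this
        linarith
    · intro z _ z' _ heq
      simp only [Prod.mk.injEq, Nat.cast_inj] at heq
      obtain ⟨⟨a1, a2, a3⟩, a4, a5, a6⟩ := heq
      refine Prod.ext (funext fun i => ?_) (funext fun i => ?_)
      · fin_cases i
        · exact a1
        · exact a2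
        · exact a6
      · fin_cases i
        · exact a3
        · exact a4
        · exact a5
  refine h1.trans ?_
  have h2 : ((box N ×ˢ box N).filter (fun p => li p.2 = li p.1 ∧ fk k p.2 = fk k p.1)).card =
      ∑ v ∈ box N, RR k N (li v) (fk k v) := by
    rw [card_filter, sum_product]
    apply sum_congr rfl
    intro v _
    unfold RR
    rw [card_filter]
  rw [h2, ← sum_filter_add_sum_filter_not (box N) (fun v => fk k v = li v ^ k)]
  apply Nat.add_le_add
  · calc ∑ v ∈ (box N).filter (fun v => fk k v = li v ^ k), RR k N (li v) (fk k v)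
        ≤ ∑ _v ∈ (box N).filter (fun v => fk k v = li v ^ k), 2 * N := by
          apply sum_le_sum
          intro v hv
          rw [mem_filter] at hv
          rw [hv.2]
          exact RR_deg hk N _
      _ = ((box N).filter (fun v => fk k v = li v ^ k)).card * (2 * N) := by
          rw [sum_const, smul_eq_mul]
      _ ≤ 2 * N ^ 2 * (2 * N) := Nat.mul_le_mul_right _ (deg_card hk N)
      _ = 4 * N ^ 3 := by ring
  · calc ∑ v ∈ (box N).filter (fun v => ¬ fk k v = li v ^ k), RR k N (li v) (fk k v)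
        ≤ ∑ _v ∈ (box N).filter (fun v => ¬ fk k v = li v ^ k), (2 * D) ^ 2 := by
          apply sum_le_sum
          intro v hv
          rw [mem_filter] at hv
          have hne : li v ^ k - fk k v ≠ 0 := fun h => hv.2 (by linarith)
          apply RR_nondeg k N D _ _ hne
          apply hD
          · have := Int.natAbs_ne_zero.mpr hne
            omega
          · exact w_le k N (by omega) v hv.1
      _ = ((box N).filter (fun v => ¬ fk k v = li v ^ k)).card * (2 * D) ^ 2 := by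
          rw [sum_const, smul_eq_mul]
      _ ≤ N ^ 3 * (2 * D) ^ 2 := by
          apply Nat.mul_le_mul_right
          rw [← card_box N]
          exact card_filter_le _ _
      _ = (2 * D) ^ 2 * N ^ 3 := mul_comm _ _

/-- the number of solutions in four variables -/
theorem four_nat (k N : ℕ) (hk : 2 ≤ k) : J 2 k N ≤ 2 * N ^ 2 := by
  classical
  unfold J
  have hsub : ((tup 2 N) ×ˢ (tup 2 N)).filter
      (fun z => ∑ i, z.1 i = ∑ i, z.2 i ∧ ∑ i, z.1 i ^ k = ∑ i, z.2 i ^ k) ⊆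
      ((tup 2 N).image (fun x => (x, x))) ∪ ((tup 2 N).image (fun x => (x, ![x 1, x 0]))) := by
    intro z hz
    rw [mem_filter, mem_product] at hz
    obtain ⟨⟨h2, h3⟩, h4, h5⟩ := hz
    have h2' := h2
    have h3' := h3
    unfold tup at h2' h3'
    rw [Fintype.mem_piFinset] at h2' h3'
    have g0 := mem_Icc.mp (h2' 0)
    have g1 := mem_Icc.mp (h2' 1)
    have g0' := mem_Icc.mp (h3' 0)
    have g1' := mem_Icc.mp (h3' 1)
    rw [Fin.sum_univ_two, Fin.sum_univ_two] at h4 h5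
    rw [mem_union, mem_image, mem_image]
    have e1 : ((z.2 1 : ℕ) : ℤ) = (z.1 0 : ℤ) + (z.1 1 : ℤ) - (z.2 0 : ℤ) := by omega
    have e2 : (z.1 0 : ℤ) ^ k + (z.1 1 : ℤ) ^ k - (z.2 0 : ℤ) ^ k =
        ((z.1 0 : ℤ) + (z.1 1 : ℤ) - (z.2 0 : ℤ)) ^ k := by
      rw [← e1]
      have : ((z.1 0 ^ k + z.1 1 ^ k : ℕ) : ℤ) = ((z.2 0 ^ k + z.2 1 ^ k : ℕ) : ℤ) := by rw [h5]
      push_cast at this
      linarith
    rcases triv hk _ _ _ (by omega) (by omega) (by omega) e2 with g | g
    · left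
      refine ⟨z.1, h2, ?_⟩
      refine Prod.ext rfl (funext fun i => ?_)
      fin_cases i
      · simp only [Fin.zero_eta]; omega
      · simp only [Fin.mk_one]; omega
    · right
      refine ⟨z.1, h2, ?_⟩
      refine Prod.ext rfl (funext fun i => ?_)
      fin_cases i
      · simp; omega
      · simp; omega
  refine (card_le_card hsub).trans ((card_union_le _ _).trans ?_)
  have h1 : (tup 2 N).card = N ^ 2 := by
    unfold tup
    rw [Fintype.card_piFinset]
    simp
  have h2 := card_image_le (s := tup 2 N) (f := fun x => (x, x))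
  have h3 := card_image_le (s := tup 2 N) (f := fun x => (x, ![x 1, x 0]))
  omega

end Pool.Agent.Run7.h556.MW
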